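import Mathlib

namespace Pool.Agent.Helper125GL

open Cardinal Submodule

universe u v

section tools

variable {F : Type u} {V : Type v} [Field F] [AddCommGroup V] [Module F V]

theorem rank_le_quot {N : Type v} [AddCommGroup N] [Module F N] (K : Submodule F V)
    (S : V →ₗ[F] N) (hS : Function.Surjective S) (hK : ∀ v ∈ K, S v = 0) :
    Module.rank F N ≤ Module.rank F (V ⧸ K) := by
  refine LinearMap.rank_le_of_surjective (K.liftQ S (fun v hv => LinearMap.mem_ker.2 (hK v hv))) ?_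
  intro n
  obtain ⟨v, hv⟩ := hS n
  exact ⟨K.mkQ v, by simpa using hv⟩

theorem exists_split {A Y : Type v} [AddCommGroup A] [Module F A] [AddCommGroup Y] [Module F Y]
    (j : A →ₗ[F] Y) (hj : Function.Injective j) :
    ∃ e : Y ≃ₗ[F] A × (Y ⧸ LinearMap.range j), ∀ a, e (j a) = (a, 0) := by
  obtain ⟨l, hl⟩ := j.exists_leftInverse_of_injective (LinearMap.ker_eq_bot.2 hj)
  have hl' : ∀ a, l (j a) = a := fun a => LinearMap.congr_fun hl a
  refine ⟨LinearEquiv.ofBijective (l.prod (LinearMap.range j).mkQ) ⟨?_, ?_⟩, ?_⟩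
  · rw [← LinearMap.ker_eq_bot, LinearMap.ker_eq_bot']
    intro y hy
    have h1 : l y = 0 := congrArg Prod.fst hy
    have h2 : (LinearMap.range j).mkQ y = 0 := congrArg Prod.snd hy
    rw [Submodule.mkQ_apply, Submodule.Quotient.mk_eq_zero] at h2
    obtain ⟨a, rfl⟩ := h2
    rw [hl'] at h1
    rw [h1, map_zero]
  · rintro ⟨a, z⟩
    obtain ⟨z, rfl⟩ := Submodule.mkQ_surjective _ z
    refine ⟨z - j (l z) + j a, ?_⟩
    have h3 : ∀ b, (LinearMap.range j).mkQ (j b) = 0 := fun b => by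
      rw [Submodule.mkQ_apply]; exact (Submodule.Quotient.mk_eq_zero _).2 ⟨b, rfl⟩
    refine Prod.ext ?_ ?_
    · change l (z - j (l z) + j a) = a
      rw [map_add, map_sub, hl', hl', sub_self, zero_add]
    · change (LinearMap.range j).mkQ (z - j (l z) + j a) = (LinearMap.range j).mkQ z
      rw [map_add, map_sub, h3, h3, sub_zero, add_zero]
  · intro a
    refine Prod.ext ?_ ?_
    · exact hl' a
    · change (LinearMap.range j).mkQ (j a) = 0
      rw [Submodule.mkQ_apply]; exact (Submodule.Quotient.mk_eq_zero _).2 ⟨a, rfl⟩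

theorem exists_equiv_extend {A Y : Type v} [AddCommGroup A] [Module F A] [AddCommGroup Y]
    [Module F Y] (j₁ j₂ : A →ₗ[F] Y) (h₁ : Function.Injective j₁) (h₂ : Function.Injective j₂)
    (hr : Module.rank F (Y ⧸ LinearMap.range j₁) = Module.rank F (Y ⧸ LinearMap.range j₂)) :
    ∃ y : Y ≃ₗ[F] Y, ∀ a, y (j₁ a) = j₂ a := by
  obtain ⟨e₁, he₁⟩ := exists_split j₁ h₁
  obtain ⟨e₂, he₂⟩ := exists_split j₂ h₂
  obtain ⟨f⟩ := nonempty_linearEquiv_of_rank_eq hr
  refine ⟨e₁.trans (((LinearEquiv.refl F A).prodCongr f).trans e₂.symm), ?_⟩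
  intro a
  simp only [LinearEquiv.trans_apply, he₁, LinearEquiv.prodCongr_apply, LinearEquiv.refl_apply,
    map_zero]
  rw [← he₂, LinearEquiv.symm_apply_apply]

theorem exists_sq (hV : ℵ₀ ≤ Module.rank F V) : Nonempty (V ≃ₗ[F] V × V) := by
  apply nonempty_linearEquiv_of_rank_eq
  rw [rank_prod', Cardinal.add_eq_self hV]

end tools

section main

variable {F : Type u} {V : Type v} [Field F] [AddCommGroup V] [Module F V]

/-- the hypothesis of the question -/
def Ind (H : Subgroup (V ≃ₗ[F] V)) : Prop :=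
  ∀ U : Submodule F V, Module.rank F U = Module.rank F V →
    Module.rank F (V ⧸ U) = Module.rank F V → ∀ g : U ≃ₗ[F] U, ∃ h ∈ H, ∀ u : U, h u = g u

theorem ext_aux (hV : ℵ₀ ≤ Module.rank F V) {H : Subgroup (V ≃ₗ[F] V)} (hH : Ind H)
    {A : Type v} [AddCommGroup A] [Module F A] (j₁ j₂ : A →ₗ[F] V)
    (h₁ : Function.Injective j₁) (h₂ : Function.Injective j₂)
    (hA : Module.rank F A = Module.rank F V) {N : Type v} [AddCommGroup N] [Module F N]
    (hN : Module.rank F N = Module.rank F V) (S : V →ₗ[F] N) (hS : Function.Surjective S)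
    (hS₁ : ∀ a, S (j₁ a) = 0) (hS₂ : ∀ a, S (j₂ a) = 0) :
    ∃ h ∈ H, ∀ a, h (j₁ a) = j₂ a := by
  obtain ⟨e⟩ := exists_sq (F := F) (V := N) (by rw [hN]; exact hV)
  set σ : V →ₗ[F] N := (LinearMap.snd F N N) ∘ₗ (e : N →ₗ[F] N × N) ∘ₗ S with hσ
  set τ : V →ₗ[F] N := (LinearMap.fst F N N) ∘ₗ (e : N →ₗ[F] N × N) ∘ₗ S with hτ
  have hσs : Function.Surjective σ := by
    intro n
    obtain ⟨v, hv⟩ := hS (e.symm (0, n))
    exact ⟨v, by simp [hσ, hv]⟩
  set Y : Submodule F V := LinearMap.ker σ with hY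
  have hm₁ : ∀ a, j₁ a ∈ Y := fun a => by simp [hY, hσ, hS₁]
  have hm₂ : ∀ a, j₂ a ∈ Y := fun a => by simp [hY, hσ, hS₂]
  have hYr : Module.rank F Y = Module.rank F V := by
    apply le_antisymm (Submodule.rank_le _)
    rw [← hA]
    refine LinearMap.rank_le_of_injective (j₁.codRestrict Y hm₁) ?_
    intro a b hab
    exact h₁ (congrArg Subtype.val hab)
  have hYq : Module.rank F (V ⧸ Y) = Module.rank F V := by
    apply le_antisymm (rank_quotient_le _)
    rw [← hN]
    exact rank_le_quot Y σ hσs (fun v hv => hv)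
  have key : ∀ j : A →ₗ[F] V, (hj : ∀ a, j a ∈ Y) → (∀ a, S (j a) = 0) →
      Module.rank F (Y ⧸ LinearMap.range (j.codRestrict Y hj)) = Module.rank F V := by
    intro j hj hSj
    apply le_antisymm
    · exact (rank_quotient_le _).trans (Submodule.rank_le _)
    · rw [← hN]
      refine rank_le_quot _ (τ ∘ₗ Y.subtype) ?_ ?_
      · intro n
        obtain ⟨v, hv⟩ := hS (e.symm (n, 0))
        refine ⟨⟨v, ?_⟩, ?_⟩
        · simp [hY, hσ, hv]
        · simp [hτ, hv]
      · rintro _ ⟨a, rfl⟩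
        simp [hτ, hSj]
  obtain ⟨y, hy⟩ := exists_equiv_extend (j₁.codRestrict Y hm₁) (j₂.codRestrict Y hm₂)
    (fun a b hab => h₁ (congrArg Subtype.val hab)) (fun a b hab => h₂ (congrArg Subtype.val hab))
    ((key j₁ hm₁ hS₁).trans (key j₂ hm₂ hS₂).symm)
  obtain ⟨h, hh, hu⟩ := hH Y hYr hYq y
  refine ⟨h, hh, fun a => ?_⟩
  have := hu (j₁.codRestrict Y hm₁ a)
  rw [hy] at this
  exact this

/-- any isomorphism between large subspaces is induced by an element of `H` -/
theorem claim0 (hV : ℵ₀ ≤ Module.rank F V) {H : Subgroup (V ≃ₗ[F] V)} (hH : Ind H)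
    {A : Type v} [AddCommGroup A] [Module F A] (j₁ j₂ : A →ₗ[F] V)
    (h₁ : Function.Injective j₁) (h₂ : Function.Injective j₂)
    (hA : Module.rank F A = Module.rank F V)
    (hq₁ : Module.rank F (V ⧸ LinearMap.range j₁) = Module.rank F V)
    (hq₂ : Module.rank F (V ⧸ LinearMap.range j₂) = Module.rank F V) :
    ∃ h ∈ H, ∀ a, h (j₁ a) = j₂ a := by
  -- it suffices to find j₃ with range in range j₁ and S killing j₂ and j₃
  suffices hs : ∃ j₃ : A →ₗ[F] V, Function.Injective j₃ ∧ (∀ a, j₃ a ∈ LinearMap.range j₁) ∧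
      ∃ S : V →ₗ[F] (V ⧸ LinearMap.range j₁), Function.Surjective S ∧
        (∀ a, S (j₃ a) = 0) ∧ (∀ a, S (j₂ a) = 0) by
    obtain ⟨j₃, h₃, hr₃, S, hS, hS₃, hS₂⟩ := hs
    obtain ⟨h, hh, hu⟩ := ext_aux hV hH j₁ j₃ h₁ h₃ hA (N := V ⧸ LinearMap.range j₁) hq₁
      (LinearMap.range j₁).mkQ (Submodule.mkQ_surjective _)
      (fun a => by
        rw [Submodule.mkQ_apply]; exact (Submodule.Quotient.mk_eq_zero _).2 ⟨a, rfl⟩)
      (fun a => by
        rw [Submodule.mkQ_apply]; exact (Submodule.Quotient.mk_eq_zero _).2 (hr₃ a))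
    obtain ⟨k, hk, hv⟩ := ext_aux hV hH j₃ j₂ h₃ h₂ hA (N := V ⧸ LinearMap.range j₁) hq₁
      S hS hS₃ hS₂
    exact ⟨k * h, H.mul_mem hk hh, fun a => by rw [LinearEquiv.mul_apply, hu, hv]⟩
  -- the map A → V ⧸ range j₂
  set W' := LinearMap.range j₂ with hW'
  set ρ : A →ₗ[F] (V ⧸ W') := W'.mkQ ∘ₗ j₁ with hρ
  have hsum := LinearMap.rank_range_add_rank_ker ρ
  by_cases hk : Module.rank F (LinearMap.ker ρ) = Module.rank F V
  · obtain ⟨i⟩ := nonempty_linearEquiv_of_rank_eq (hA.trans hk.symm)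
    obtain ⟨t⟩ := nonempty_linearEquiv_of_rank_eq (hq₂.trans hq₁.symm)
    refine ⟨j₁ ∘ₗ (LinearMap.ker ρ).subtype ∘ₗ (i : A →ₗ[F] _), ?_, fun a => ⟨_, rfl⟩,
      (t : (V ⧸ W') →ₗ[F] _) ∘ₗ W'.mkQ, ?_, ?_, ?_⟩
    · exact h₁.comp (Subtype.val_injective.comp i.injective)
    · exact t.surjective.comp (Submodule.mkQ_surjective _)
    · intro a
      have := (i a).2
      rw [LinearMap.mem_ker] at this
      simp only [hρ, LinearMap.comp_apply] at this
      simp only [LinearMap.comp_apply, Submodule.subtype_apply, LinearEquiv.coe_coe]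
      rw [this, map_zero]
    · intro a
      have : W'.mkQ (j₂ a) = 0 := by
        rw [Submodule.mkQ_apply]; exact (Submodule.Quotient.mk_eq_zero _).2 ⟨a, rfl⟩
      simp only [LinearMap.comp_apply, this, map_zero]
  · have hkl : Module.rank F (LinearMap.ker ρ) < Module.rank F V :=
      lt_of_le_of_ne (by rw [← hA]; exact Submodule.rank_le _) hk
    have hR : Module.rank F (LinearMap.range ρ) = Module.rank F V := by
      rw [hA] at hsum
      rcases lt_or_ge (Module.rank F (LinearMap.range ρ)) (Module.rank F V) with h | h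
      · exact absurd hsum (ne_of_lt (Cardinal.add_lt_of_lt hV h hkl))
      · exact le_antisymm (by rw [← hsum]; exact self_le_add_right _ _) h
    obtain ⟨e⟩ := exists_sq (F := F) (V := LinearMap.range ρ) (by rw [hR]; exact hV)
    obtain ⟨φ, hφ⟩ := LinearMap.exists_extend
      ((LinearMap.snd F (LinearMap.range ρ) (LinearMap.range ρ)) ∘ₗ
        (e : LinearMap.range ρ →ₗ[F] LinearMap.range ρ × LinearMap.range ρ))
    have hφ' : ∀ r : LinearMap.range ρ, φ r = (e r).2 := fun r => LinearMap.congr_fun hφ r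
    set K : Submodule F A := LinearMap.ker (φ ∘ₗ ρ) with hK
    have hKr : Module.rank F K = Module.rank F V := by
      apply le_antisymm
      · rw [← hA]; exact Submodule.rank_le _
      · rw [← hR]
        refine LinearMap.rank_le_of_surjective
          ((LinearMap.fst F (LinearMap.range ρ) (LinearMap.range ρ)) ∘ₗ
            (e : LinearMap.range ρ →ₗ[F] LinearMap.range ρ × LinearMap.range ρ) ∘ₗ
            ρ.rangeRestrict ∘ₗ K.subtype) ?_
        intro r
        obtain ⟨a, ha⟩ := (e.symm (r, 0)).2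
        have h3 : ρ.rangeRestrict a = e.symm (r, 0) := Subtype.ext ha
        refine ⟨⟨a, ?_⟩, ?_⟩
        · rw [hK, LinearMap.mem_ker, LinearMap.comp_apply, ha, hφ', LinearEquiv.apply_symm_apply]
        · simp only [LinearMap.comp_apply, Submodule.subtype_apply, h3]
          simp
    obtain ⟨i⟩ := nonempty_linearEquiv_of_rank_eq (hA.trans hKr.symm)
    obtain ⟨t⟩ := nonempty_linearEquiv_of_rank_eq (hR.trans hq₁.symm)
    refine ⟨j₁ ∘ₗ K.subtype ∘ₗ (i : A →ₗ[F] _), ?_, fun a => ⟨_, rfl⟩,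
      (t : LinearMap.range ρ →ₗ[F] _) ∘ₗ φ ∘ₗ W'.mkQ, ?_, ?_, ?_⟩
    · exact h₁.comp (Subtype.val_injective.comp i.injective)
    · intro n
      obtain ⟨a, ha⟩ := (e.symm (0, t.symm n)).2
      refine ⟨j₁ a, ?_⟩
      have h4 : W'.mkQ (j₁ a) = ((e.symm (0, t.symm n) : LinearMap.range ρ) : V ⧸ W') := ha
      simp only [LinearMap.comp_apply, h4, hφ', LinearEquiv.apply_symm_apply, LinearEquiv.coe_coe]
    · intro a
      have h5 : ((i a : K) : A) ∈ LinearMap.ker (φ ∘ₗ ρ) := (i a).2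
      have this := LinearMap.mem_ker.1 h5
      simp only [hρ, LinearMap.comp_apply] at this
      simp only [LinearMap.comp_apply, Submodule.subtype_apply, LinearEquiv.coe_coe]
      rw [this, map_zero]
    · intro a
      have : W'.mkQ (j₂ a) = 0 := by
        rw [Submodule.mkQ_apply]; exact (Submodule.Quotient.mk_eq_zero _).2 ⟨a, rfl⟩
      simp only [LinearMap.comp_apply, this, map_zero]

/-- every `t` agrees with an element of `H` on a given large subspace -/
theorem claim0' (hV : ℵ₀ ≤ Module.rank F V) {H : Subgroup (V ≃ₗ[F] V)} (hH : Ind H)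
    (U : Submodule F V) (hU : Module.rank F U = Module.rank F V)
    (hq : Module.rank F (V ⧸ U) = Module.rank F V) (t : V ≃ₗ[F] V) :
    ∃ h ∈ H, ∀ u ∈ U, h u = t u := by
  obtain ⟨h, hh, hu⟩ := claim0 hV hH U.subtype ((t : V →ₗ[F] V) ∘ₗ U.subtype)
    U.injective_subtype (t.injective.comp U.injective_subtype) hU
    (by rw [Submodule.range_subtype]; exact hq)
    (by
      rw [LinearMap.range_comp, Submodule.range_subtype, ← hq]
      exact (LinearEquiv.rank_eq (Submodule.Quotient.equiv U (U.map (t : V →ₗ[F] V)) t rfl)).symm)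
  exact ⟨h, hh, fun u hu' => hu ⟨u, hu'⟩⟩

end main

end Pool.Agent.Helper125GL
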