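import Pool.Agent.Helper125_GL.StepB

namespace Pool.Agent.Helper125GL

open Cardinal Submodule

universe u v

variable {F : Type u} {V : Type v} [Field F] [AddCommGroup V] [Module F V]
variable {H : Subgroup (V ≃ₗ[F] V)}

/-- every large subspace is full -/
theorem all_full (hV : ℵ₀ ≤ Module.rank F V)
    (hF : Cardinal.lift.{u} (Module.rank F V) < Cardinal.lift.{v} #F) (hH : Ind H)
    (W' : Submodule F V) (hW' : Module.rank F W' = Module.rank F V)
    (hWq' : Module.rank F (V ⧸ W') = Module.rank F V)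
    (q : V →ₗ[F] W') (hq : ∀ w : W', q w = 0) : ∃ h ∈ H, ∀ v, h v = v + q v := by
  obtain ⟨W, hW, hWq, hfull⟩ := exists_full hV hF hH
  obtain ⟨j⟩ := nonempty_linearEquiv_of_rank_eq (hW.trans hW'.symm)
  obtain ⟨t, ht, htj⟩ := claim0 hV hH W.subtype (W'.subtype ∘ₗ (j : W →ₗ[F] W'))
    W.injective_subtype (W'.injective_subtype.comp j.injective) hW
    (by rw [Submodule.range_subtype]; exact hWq)
    (by
      rw [LinearMap.range_comp, LinearEquiv.range, Submodule.map_top, Submodule.range_subtype]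
      exact hWq')
  have htj' : ∀ w : W, t w = j w := htj
  obtain ⟨-, h, hh, hv⟩ := hfull ((j.symm : W' →ₗ[F] W) ∘ₗ q ∘ₗ (t : V →ₗ[F] V)) (fun w => by
    simp only [LinearMap.comp_apply, LinearEquiv.coe_coe, htj', hq, map_zero])
  refine ⟨t * h * t⁻¹, H.mul_mem (H.mul_mem ht hh) (H.inv_mem ht), fun v => ?_⟩
  obtain ⟨y, rfl⟩ := t.surjective v
  rw [LinearEquiv.mul_apply, LinearEquiv.mul_apply, LinearEquiv.coe_inv,
    LinearEquiv.symm_apply_apply, hv, map_add, htj']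
  simp

/-- conjugation by an equivalence -/
def conjE {P : Type v} [AddCommGroup P] [Module F P] (e : V ≃ₗ[F] P) (p : P ≃ₗ[F] P) :
    V ≃ₗ[F] V := (e.trans p).trans e.symm

theorem conjE_apply {P : Type v} [AddCommGroup P] [Module F P] (e : V ≃ₗ[F] P)
    (p : P ≃ₗ[F] P) (v : V) : conjE e p v = e.symm (p (e v)) := rfl

theorem whitehead (hV : ℵ₀ ≤ Module.rank F V)
    (hF : Cardinal.lift.{u} (Module.rank F V) < Cardinal.lift.{v} #F) (hH : Ind H)
    {R X : Type v} [AddCommGroup R] [Module F R] [AddCommGroup X] [Module F X]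
    (hX : Module.rank F X = Module.rank F V) (e : V ≃ₗ[F] R × (X × X)) (c : X ≃ₗ[F] X) :
    ∃ h ∈ H, ∀ v, e (h v) = ((e v).1, (c (e v).2.1, c.symm (e v).2.2)) := by
  -- E12
  have h12 : ∀ x : X →ₗ[F] X, ∃ h ∈ H, ∀ v, e (h v) =
      ((e v).1, ((e v).2.1 + x (e v).2.2, (e v).2.2)) := by
    intro x
    set i : X →ₗ[F] V := (e.symm : R × (X × X) →ₗ[F] V) ∘ₗ LinearMap.inr F R (X × X) ∘ₗ
      LinearMap.inl F X X with hi
    have hie : ∀ y, e (i y) = (0, (y, 0)) := fun y => by simp [hi]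
    have hinj : Function.Injective i := by
      intro y z hyz
      have := congrArg e hyz
      rw [hie, hie] at this
      exact congrArg (fun p : R × (X × X) => p.2.1) this
    obtain ⟨h, hh, hv⟩ := all_full hV hF hH (LinearMap.range i)
      (by rw [← hX]; exact (LinearEquiv.rank_eq (LinearEquiv.ofInjective i hinj)).symm)
      (le_antisymm (rank_quotient_le _) (by
        rw [← hX]
        refine rank_le_quot _ (LinearMap.snd F X X ∘ₗ LinearMap.snd F R (X × X) ∘ₗ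
          (e : V →ₗ[F] R × (X × X))) ?_ ?_
        · intro y
          exact ⟨e.symm (0, (0, y)), by simp⟩
        · rintro _ ⟨y, rfl⟩
          simp only [LinearMap.comp_apply, LinearEquiv.coe_coe, hie, LinearMap.snd_apply]))
      (i.rangeRestrict ∘ₗ x ∘ₗ LinearMap.snd F X X ∘ₗ LinearMap.snd F R (X × X) ∘ₗ
          (e : V →ₗ[F] R × (X × X)))
      (by
        rintro ⟨_, y, rfl⟩
        simp only [LinearMap.comp_apply, LinearEquiv.coe_coe, hie, LinearMap.snd_apply, map_zero])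
    refine ⟨h, hh, fun v => ?_⟩
    rw [hv, map_add]
    refine Prod.ext ?_ (Prod.ext ?_ ?_) <;> simp [hie]
  have h21 : ∀ x : X →ₗ[F] X, ∃ h ∈ H, ∀ v, e (h v) =
      ((e v).1, ((e v).2.1, (e v).2.2 + x (e v).2.1)) := by
    intro x
    set i : X →ₗ[F] V := (e.symm : R × (X × X) →ₗ[F] V) ∘ₗ LinearMap.inr F R (X × X) ∘ₗ
      LinearMap.inr F X X with hi
    have hie : ∀ y, e (i y) = (0, (0, y)) := fun y => by simp [hi]
    have hinj : Function.Injective i := by
      intro y z hyz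
      have := congrArg e hyz
      rw [hie, hie] at this
      exact congrArg (fun p : R × (X × X) => p.2.2) this
    obtain ⟨h, hh, hv⟩ := all_full hV hF hH (LinearMap.range i)
      (by rw [← hX]; exact (LinearEquiv.rank_eq (LinearEquiv.ofInjective i hinj)).symm)
      (le_antisymm (rank_quotient_le _) (by
        rw [← hX]
        refine rank_le_quot _ (LinearMap.fst F X X ∘ₗ LinearMap.snd F R (X × X) ∘ₗ
          (e : V →ₗ[F] R × (X × X))) ?_ ?_
        · intro y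
          exact ⟨e.symm (0, (y, 0)), by simp⟩
        · rintro _ ⟨y, rfl⟩
          simp only [LinearMap.comp_apply, LinearEquiv.coe_coe, hie, LinearMap.snd_apply,
            LinearMap.fst_apply]))
      (i.rangeRestrict ∘ₗ x ∘ₗ LinearMap.fst F X X ∘ₗ LinearMap.snd F R (X × X) ∘ₗ
          (e : V →ₗ[F] R × (X × X)))
      (by
        rintro ⟨_, y, rfl⟩
        simp only [LinearMap.comp_apply, LinearEquiv.coe_coe, hie, LinearMap.snd_apply,
          LinearMap.fst_apply, map_zero])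
    refine ⟨h, hh, fun v => ?_⟩
    rw [hv, map_add]
    refine Prod.ext ?_ (Prod.ext ?_ ?_) <;> simp [hie]
  obtain ⟨h₁, hh₁, hv₁⟩ := h12 (c : X →ₗ[F] X)
  obtain ⟨h₂, hh₂, hv₂⟩ := h21 (-(c.symm : X →ₗ[F] X))
  obtain ⟨h₃, hh₃, hv₃⟩ := h12 (-LinearMap.id)
  obtain ⟨h₄, hh₄, hv₄⟩ := h21 LinearMap.id
  refine ⟨h₁ * h₂ * h₁ * (h₃ * h₄ * h₃), H.mul_mem (H.mul_mem (H.mul_mem hh₁ hh₂) hh₁)
    (H.mul_mem (H.mul_mem hh₃ hh₄) hh₃), fun v => ?_⟩
  simp only [LinearEquiv.mul_apply, hv₁, hv₂, hv₃, hv₄, LinearMap.neg_apply, LinearMap.id_apply,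
    LinearEquiv.coe_coe]
  refine Prod.ext rfl (Prod.ext ?_ ?_)
  · simp
  · simp

/-- the swindle isomorphism -/
theorem exists_swindle {B : Type v} [AddCommGroup B] [Module F B] (γ : B ≃ₗ[F] B) :
    ∃ τ : (ℕ →₀ B) ≃ₗ[F] B × (ℕ →₀ B), ∀ y,
      τ (Finsupp.mapRange.linearEquiv γ y) =
        (γ (τ y).1, Finsupp.mapRange.linearEquiv γ (τ y).2) := by
  refine ⟨((Finsupp.domLCongr (M := B) (R := F) Equiv.natSumPUnitEquivNat.{0}.symm).trans
    (Finsupp.sumFinsuppLEquivProdFinsupp F)).trans ((LinearEquiv.prodComm F _ _).trans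
    ((Finsupp.uniqueLinearEquiv F B PUnit.unit.{1}).prodCongr (LinearEquiv.refl F _))), ?_⟩
  intro y
  refine Prod.ext ?_ ?_
  · simp
  · ext n
    simp

theorem rank_nat_seq {B : Type v} [AddCommGroup B] [Module F B] (hB : ℵ₀ ≤ Module.rank F B) :
    Module.rank F (ℕ →₀ B) = Module.rank F B := by
  rw [rank_finsupp]
  simp [Cardinal.aleph0_mul_eq hB]

theorem swindle (hV : ℵ₀ ≤ Module.rank F V)
    (hF : Cardinal.lift.{u} (Module.rank F V) < Cardinal.lift.{v} #F) (hH : Ind H)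
    {W B : Type v} [AddCommGroup W] [Module F W] [AddCommGroup B] [Module F B]
    (hW : Module.rank F W = Module.rank F V) (hB : Module.rank F B = Module.rank F V)
    (e : V ≃ₗ[F] W × B) (γ : B ≃ₗ[F] B) :
    ∃ d ∈ H, ∀ v, e (d v) = ((e v).1, γ (e v).2) := by
  have hY : Module.rank F (ℕ →₀ B) = Module.rank F V := by
    rw [rank_nat_seq (by rw [hB]; exact hV), hB]
  obtain ⟨g⟩ : Nonempty (W ≃ₗ[F] (ℕ →₀ B) × (ℕ →₀ B)) := by
    apply nonempty_linearEquiv_of_rank_eq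
    rw [rank_prod', hY, hW, Cardinal.add_eq_self hV]
  obtain ⟨τ, hτ⟩ := exists_swindle γ
  set c : (ℕ →₀ B) ≃ₗ[F] (ℕ →₀ B) := Finsupp.mapRange.linearEquiv γ with hc
  have hτ' : ∀ p : B × (ℕ →₀ B), τ (c (τ.symm p)) = (γ p.1, c p.2) := fun p => by
    rw [hτ, LinearEquiv.apply_symm_apply]
  let e₁ : V ≃ₗ[F] B × ((ℕ →₀ B) × (ℕ →₀ B)) :=
    e.trans ((LinearEquiv.prodComm F W B).trans ((LinearEquiv.refl F B).prodCongr g))
  have he₁ : ∀ v, e₁ v = ((e v).2, g (e v).1) := fun v => rfl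
  let e₂ : V ≃ₗ[F] PUnit.{v + 1} × ((ℕ →₀ B) × (ℕ →₀ B)) :=
    (e₁.trans ((LinearEquiv.prodAssoc F B (ℕ →₀ B) (ℕ →₀ B)).symm.trans
      (τ.symm.prodCongr (LinearEquiv.refl F (ℕ →₀ B))))).trans
      (LinearEquiv.uniqueProd (R := F) (M := (ℕ →₀ B) × (ℕ →₀ B)) (M₂ := PUnit.{v + 1})).symm
  have he₂ : ∀ v, (e₂ v).2 = (τ.symm ((e₁ v).1, (e₁ v).2.1), (e₁ v).2.2) := fun v => rfl
  obtain ⟨h₁, hh₁, hv₁⟩ := whitehead hV hF hH hY e₁ c
  obtain ⟨h₂, hh₂, hv₂⟩ := whitehead hV hF hH hY e₂ c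
  have hv₂' : ∀ v, e₁ (h₂ v) = (γ (e₁ v).1, (c (e₁ v).2.1, c.symm (e₁ v).2.2)) := by
    intro v
    have h3 := congrArg Prod.snd (hv₂ v)
    rw [he₂, he₂] at h3
    have h4 := congrArg Prod.fst h3
    have h5 := congrArg Prod.snd h3
    simp only at h4 h5
    have h6 := congrArg τ h4
    rw [LinearEquiv.apply_symm_apply, hτ'] at h6
    have h6' := Prod.ext_iff.1 h6
    refine Prod.ext ?_ (Prod.ext ?_ ?_)
    · exact h6'.1
    · exact h6'.2
    · exact h5
  refine ⟨h₂ * h₁⁻¹, H.mul_mem hh₂ (H.inv_mem hh₁), fun v => ?_⟩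
  obtain ⟨y, rfl⟩ := h₁.surjective v
  rw [LinearEquiv.mul_apply, LinearEquiv.coe_inv, LinearEquiv.symm_apply_apply]
  have h7 := hv₁ y
  have h8 := hv₂' y
  rw [he₁ (h₁ y)] at h7
  rw [he₁ (h₂ y)] at h8
  have h9 : (e (h₁ y)).2 = (e₁ y).1 := congrArg Prod.fst h7
  have h10 : g (e (h₁ y)).1 = (c (e₁ y).2.1, c.symm (e₁ y).2.2) := congrArg Prod.snd h7
  have h11 : (e (h₂ y)).2 = γ (e₁ y).1 := congrArg Prod.fst h8
  have h12 : g (e (h₂ y)).1 = (c (e₁ y).2.1, c.symm (e₁ y).2.2) := congrArg Prod.snd h8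
  refine Prod.ext ?_ ?_
  · exact g.injective (h12.trans h10.symm)
  · rw [h11, h9]

theorem main (hV : ℵ₀ ≤ Module.rank F V)
    (hF : Cardinal.lift.{u} (Module.rank F V) < Cardinal.lift.{v} #F) (hH : Ind H) : H = ⊤ := by
  rw [Subgroup.eq_top_iff']
  intro a
  obtain ⟨W, hW, hWq, -⟩ := exists_full hV hF hH
  obtain ⟨h, hh, hha⟩ := claim0' hV hH W hW hWq a
  obtain ⟨e, he⟩ := exists_split W.subtype W.injective_subtype
  have hB : Module.rank F (V ⧸ LinearMap.range W.subtype) = Module.rank F V := by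
    rw [Submodule.range_subtype]; exact hWq
  set b : V ≃ₗ[F] V := h⁻¹ * a with hb
  have hbw : ∀ w : W, b w = w := fun w => by
    rw [hb, LinearEquiv.mul_apply, LinearEquiv.coe_inv, LinearEquiv.symm_apply_eq]
    exact (hha w w.2).symm
  set b' : (W × (V ⧸ LinearMap.range W.subtype)) ≃ₗ[F] (W × (V ⧸ LinearMap.range W.subtype)) :=
    e.symm.trans (b.trans e) with hb'
  have hb'e : ∀ v, b' (e v) = e (b v) := fun v => by simp [hb']
  have hb'w : ∀ w : W, b' (w, 0) = (w, 0) := fun w => by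
    have h1 := hb'e w
    rw [hbw] at h1
    have h2 : e (w : V) = (w, 0) := he w
    rw [h2] at h1
    exact h1
  set γ : (V ⧸ LinearMap.range W.subtype) →ₗ[F] (V ⧸ LinearMap.range W.subtype) :=
    LinearMap.snd F _ _ ∘ₗ (b' : W × (V ⧸ LinearMap.range W.subtype) →ₗ[F]
      W × (V ⧸ LinearMap.range W.subtype)) ∘ₗ LinearMap.inr F _ _ with hγ
  set η : (V ⧸ LinearMap.range W.subtype) →ₗ[F] W :=
    LinearMap.fst F _ _ ∘ₗ (b' : W × (V ⧸ LinearMap.range W.subtype) →ₗ[F]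
      W × (V ⧸ LinearMap.range W.subtype)) ∘ₗ LinearMap.inr F _ _ with hη
  have hbp : ∀ w z, b' (w, z) = (w + η z, γ z) := by
    intro w z
    have h1 : ((w, z) : W × (V ⧸ LinearMap.range W.subtype)) = (w, 0) + (0, z) := by simp
    rw [h1, map_add, hb'w]
    refine Prod.ext ?_ ?_
    · simp [hη]
    · simp [hγ]
  have hγb : Function.Bijective γ := by
    constructor
    · rw [← LinearMap.ker_eq_bot, LinearMap.ker_eq_bot']
      intro z hz
      have h1 : b' (0, z) = b' (η z, 0) := by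
        rw [hbp, hbp, hz, map_zero, map_zero, zero_add, add_zero]
      exact congrArg Prod.snd (b'.injective h1)
    · intro z
      obtain ⟨⟨w', z'⟩, hp⟩ := b'.surjective (0, z)
      rw [hbp] at hp
      exact ⟨z', congrArg Prod.snd hp⟩
  set γE := LinearEquiv.ofBijective γ hγb with hγE
  have hγEv : ∀ z, γE z = γ z := fun z => rfl
  obtain ⟨d, hd, hdv⟩ := swindle hV hF hH hW hB e γE
  obtain ⟨k, hk, hkv⟩ := all_full hV hF hH W hW hWq
    (η ∘ₗ (γE.symm : (V ⧸ LinearMap.range W.subtype) →ₗ[F] (V ⧸ LinearMap.range W.subtype)) ∘ₗ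
      LinearMap.snd F W (V ⧸ LinearMap.range W.subtype) ∘ₗ
      (e : V →ₗ[F] W × (V ⧸ LinearMap.range W.subtype)))
    (fun w => by
      have h2 : e (w : V) = (w, 0) := he w
      simp only [LinearMap.comp_apply, LinearEquiv.coe_coe, h2, LinearMap.snd_apply, map_zero])
  have hfin : b = k * d := by
    apply LinearEquiv.ext
    intro v
    apply e.injective
    have h2 : ∀ w : W, e (w : V) = (w, 0) := he
    rw [← hb'e, LinearEquiv.mul_apply, hkv, map_add, h2, hdv]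
    simp only [LinearMap.comp_apply, LinearEquiv.coe_coe, hdv, LinearMap.snd_apply,
      LinearEquiv.symm_apply_apply]
    rw [show e v = ((e v).1, (e v).2) from rfl, hbp]
    refine Prod.ext ?_ ?_
    · rfl
    · simp [hγEv]
  have hbH : b ∈ H := by rw [hfin]; exact H.mul_mem hk hd
  have : a = h * b := by rw [hb, mul_inv_cancel_left]
  rw [this]
  exact H.mul_mem hh hbH

end Pool.Agent.Helper125GL
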