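import Pool.Agent.Helper125_GL.Ring

namespace Pool.Agent.Helper125GL

open Cardinal Submodule

universe u v

variable {F : Type u} {V : Type v} [Field F] [AddCommGroup V] [Module F V]
variable {H : Subgroup (V ≃ₗ[F] V)} {W : Submodule F V}

theorem full_of_block (hV : ℵ₀ ≤ Module.rank F V) (hH : Ind H)
    (hW : Module.rank F W = Module.rank F V)
    (hWq : Module.rank F (V ⧸ W) = Module.rank F V) {f : W →ₗ[F] W} (hf : NW H W f)
    {A C : Type v} [AddCommGroup A] [Module F A] [AddCommGroup C] [Module F C]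
    (e : W ≃ₗ[F] A × C) (s : C ≃ₗ[F] A) (j : W ≃ₗ[F] A) (a : F) (ha : a ≠ 1)
    (m l : C →ₗ[F] C)
    (hfe : ∀ p, f (e.symm p) = e.symm (a • p.1, m p.2))
    (hl1 : ∀ c, m (l c) - a • l c = c) (hl2 : ∀ c, l (m c) - a • l c = c)
    (q : V →ₗ[F] W) (hq : ∀ w : W, q w = 0) : QW H W q := by
  have hall := InR.all hH hW hWq hf e s a m l hfe hl1 hl2
  have ha' : (1 - a) ≠ 0 := sub_ne_zero.2 (Ne.symm ha)
  -- prescribing an element of QW on a large subspace containing W
  have hpre : ∀ K : Submodule F V, W ≤ K → Module.rank F (V ⧸ K) = Module.rank F V →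
      ∀ q : V →ₗ[F] W, (∀ w : W, q w = 0) → ∃ x, QW H W x ∧ ∀ v ∈ K, x v = q v := by
    intro K hWK hK q hq
    obtain ⟨x₁, hx₁, hx₁v⟩ := QW.prescribe hV hH hW hf K hWK hK
      ((e.symm : A × C →ₗ[F] W) ∘ₗ LinearMap.inl F A C ∘ₗ (j : W →ₗ[F] A) ∘ₗ q)
      (fun w => by simp [hq])
    refine ⟨((1 - a)⁻¹ • ((j.symm : A →ₗ[F] W) ∘ₗ LinearMap.fst F A C ∘ₗ
      (e : W →ₗ[F] A × C))) ∘ₗ x₁, hall _ _ hx₁, fun v hv => ?_⟩
    have h1 : x₁ v = e.symm ((1 - a) • j (q v), 0) := by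
      rw [hx₁v v hv]
      simp only [LinearMap.comp_apply, LinearEquiv.coe_coe, LinearMap.inl_apply, hfe, map_zero]
      rw [← map_sub, Prod.mk_sub_mk, sub_zero, sub_smul, one_smul]
    rw [LinearMap.comp_apply, h1]
    simp only [LinearMap.smul_apply, LinearMap.comp_apply, LinearEquiv.coe_coe,
      LinearEquiv.apply_symm_apply, LinearMap.fst_apply, map_smul, LinearEquiv.symm_apply_apply]
    rw [smul_smul, inv_mul_cancel₀ ha', one_smul]
  -- a surjective element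
  obtain ⟨e'⟩ : Nonempty ((V ⧸ W) ≃ₗ[F] W × W) := by
    apply nonempty_linearEquiv_of_rank_eq
    rw [rank_prod', hWq, hW, Cardinal.add_eq_self hV]
  have hmk : ∀ w : W, W.mkQ w = 0 := fun w => by
    rw [Submodule.mkQ_apply]; exact (Submodule.Quotient.mk_eq_zero _).2 w.2
  set S : V →ₗ[F] W := LinearMap.snd F W W ∘ₗ (e' : (V ⧸ W) →ₗ[F] W × W) ∘ₗ W.mkQ with hS
  have hSs : Function.Surjective S := by
    intro w
    obtain ⟨v, hv⟩ := Submodule.mkQ_surjective W (e'.symm (0, w))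
    refine ⟨v, ?_⟩
    rw [hS, LinearMap.comp_apply, LinearMap.comp_apply, hv]
    simp
  obtain ⟨x₁, hx₁, hx₁v⟩ := hpre (LinearMap.ker S)
    (fun w hw => by
      rw [LinearMap.mem_ker, hS, LinearMap.comp_apply, LinearMap.comp_apply, hmk ⟨w, hw⟩]
      simp)
    (le_antisymm (rank_quotient_le _) (by
      rw [← hW]; exact rank_le_quot _ S hSs (fun v hv => hv)))
    (LinearMap.fst F W W ∘ₗ (e' : (V ⧸ W) →ₗ[F] W × W) ∘ₗ W.mkQ)
    (fun w => by rw [LinearMap.comp_apply, LinearMap.comp_apply, hmk]; simp)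
  have hx₁s : Function.Surjective x₁ := by
    intro w
    obtain ⟨v, hv⟩ := Submodule.mkQ_surjective W (e'.symm (w, 0))
    refine ⟨v, ?_⟩
    rw [hx₁v v, LinearMap.comp_apply, LinearMap.comp_apply, hv]
    · simp
    · rw [LinearMap.mem_ker, hS, LinearMap.comp_apply, LinearMap.comp_apply, hv]
      simp
  obtain ⟨x₂, hx₂, hx₂v⟩ := hpre (LinearMap.ker x₁) (fun w hw => hx₁.1 ⟨w, hw⟩)
    (le_antisymm (rank_quotient_le _) (by
      rw [← hW]; exact rank_le_quot _ x₁ hx₁s (fun v hv => hv))) q hq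
  obtain ⟨r, hr⟩ := LinearMap.exists_rightInverse_of_surjective x₁
    (LinearMap.range_eq_top.2 hx₁s)
  have hr' : ∀ w, x₁ (r w) = w := fun w => LinearMap.congr_fun hr w
  have hqe : q = x₂ + ((q - x₂) ∘ₗ r) ∘ₗ x₁ := by
    apply LinearMap.ext
    intro v
    have h3 : v - r (x₁ v) ∈ LinearMap.ker x₁ := by
      rw [LinearMap.mem_ker, map_sub, hr', sub_self]
    have h4 := hx₂v _ h3
    rw [map_sub, map_sub, sub_eq_sub_iff_sub_eq_sub] at h4
    rw [LinearMap.add_apply, LinearMap.comp_apply, LinearMap.comp_apply, LinearMap.sub_apply]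
    have h5 : q v = x₂ v + (q (r (x₁ v)) - x₂ (r (x₁ v))) := by
      have := congrArg (fun z => x₂ v - z) h4
      simp only [sub_sub_cancel] at this
      rw [this]
      abel
    exact h5
  rw [hqe]
  exact hx₂.add (hall _ _ hx₁)

end Pool.Agent.Helper125GL
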