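import Pool.Agent.Helper125_GL.Basic

namespace Pool.Agent.Helper125GL

open Cardinal Submodule

universe u v

variable {F : Type u} {V : Type v} [Field F] [AddCommGroup V] [Module F V]

/-- `f` is induced on `W` by an element of `H` acting trivially on `V / W` -/
def NW (H : Subgroup (V ≃ₗ[F] V)) (W : Submodule F V) (f : W →ₗ[F] W) : Prop :=
  ∃ n ∈ H, (∀ v, n v - v ∈ W) ∧ ∀ w : W, n w = f w

/-- `1 + q` lies in `H` -/
def QW (H : Subgroup (V ≃ₗ[F] V)) (W : Submodule F V) (q : V →ₗ[F] W) : Prop :=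
  (∀ w : W, q w = 0) ∧ ∃ h ∈ H, ∀ v, h v = v + q v

variable {H : Subgroup (V ≃ₗ[F] V)} {W : Submodule F V}

theorem QW.add {q q' : V →ₗ[F] W} (hq : QW H W q) (hq' : QW H W q') : QW H W (q + q') := by
  obtain ⟨h0, h, hh, hv⟩ := hq
  obtain ⟨h0', h', hh', hv'⟩ := hq'
  refine ⟨fun w => by simp [h0, h0'], h * h', H.mul_mem hh hh', fun v => ?_⟩
  rw [LinearEquiv.mul_apply, hv', hv, map_add, h0, add_zero, LinearMap.add_apply,
    Submodule.coe_add]
  abel

theorem QW.neg {q : V →ₗ[F] W} (hq : QW H W q) : QW H W (-q) := by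
  obtain ⟨h0, h, hh, hv⟩ := hq
  refine ⟨fun w => by simp [h0], h⁻¹, H.inv_mem hh, fun v => ?_⟩
  rw [LinearEquiv.coe_inv, LinearEquiv.symm_apply_eq, hv, map_add, LinearMap.neg_apply,
    Submodule.coe_neg, ← Submodule.coe_neg, h0]
  simp

theorem QW.sub {q q' : V →ₗ[F] W} (hq : QW H W q) (hq' : QW H W q') : QW H W (q - q') := by
  rw [sub_eq_add_neg]; exact hq.add hq'.neg

theorem QW.comp {q : V →ₗ[F] W} {f : W →ₗ[F] W} (hq : QW H W q) (hf : NW H W f) :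
    QW H W (f ∘ₗ q) := by
  obtain ⟨h0, h, hh, hv⟩ := hq
  obtain ⟨n, hn, hnW, hnf⟩ := hf
  refine ⟨fun w => by simp [h0], n * h * n⁻¹, H.mul_mem (H.mul_mem hn hh) (H.inv_mem hn),
    fun v => ?_⟩
  obtain ⟨y, rfl⟩ := n.surjective v
  rw [LinearEquiv.mul_apply, LinearEquiv.mul_apply, LinearEquiv.coe_inv,
    LinearEquiv.symm_apply_apply, hv, map_add, hnf, LinearMap.comp_apply]
  have h1 : q (n y) = q y := by
    have h2 : q (n y - y) = 0 := h0 ⟨_, hnW y⟩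
    rw [map_sub, sub_eq_zero] at h2
    exact h2
  rw [h1]

theorem NW.conj (hH : Ind H) (hW : Module.rank F W = Module.rank F V)
    (hWq : Module.rank F (V ⧸ W) = Module.rank F V) {f : W →ₗ[F] W} (hf : NW H W f)
    (t : W ≃ₗ[F] W) : NW H W ((t : W →ₗ[F] W) ∘ₗ f ∘ₗ (t.symm : W →ₗ[F] W)) := by
  obtain ⟨n, hn, hnW, hnf⟩ := hf
  obtain ⟨k, hk, hkt⟩ := hH W hW hWq t
  refine ⟨k * n * k⁻¹, H.mul_mem (H.mul_mem hk hn) (H.inv_mem hk), fun v => ?_, fun w => ?_⟩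
  · obtain ⟨y, rfl⟩ := k.surjective v
    rw [LinearEquiv.mul_apply, LinearEquiv.mul_apply, LinearEquiv.coe_inv,
      LinearEquiv.symm_apply_apply, ← map_sub]
    rw [show n y - y = ((⟨n y - y, hnW y⟩ : W) : V) from rfl, hkt]
    exact (t _).2
  · have h1 : k.symm (w : V) = ((t.symm w : W) : V) := by
      rw [LinearEquiv.symm_apply_eq, hkt, LinearEquiv.apply_symm_apply]
    rw [LinearEquiv.mul_apply, LinearEquiv.mul_apply, LinearEquiv.coe_inv, h1, hnf, hkt]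
    rfl

/-- partial prescription of elements of `QW` -/
theorem QW.prescribe (hV : ℵ₀ ≤ Module.rank F V) (hH : Ind H)
    (hW : Module.rank F W = Module.rank F V)
    {f : W →ₗ[F] W} (hf : NW H W f) (K : Submodule F V) (hWK : W ≤ K)
    (hK : Module.rank F (V ⧸ K) = Module.rank F V) (q₁ : V →ₗ[F] W) (hq₁ : ∀ w : W, q₁ w = 0) :
    ∃ x : V →ₗ[F] W, QW H W x ∧ ∀ v ∈ K, x v = q₁ v - f (q₁ v) := by
  obtain ⟨m, hm, hmW, hmf⟩ := hf
  have hq₁' : ∀ w ∈ W, q₁ w = 0 := fun w hw => hq₁ ⟨w, hw⟩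
  -- the equivalence 1 + q₁
  let t : V ≃ₗ[F] V := LinearEquiv.ofLinearMap (LinearMap.id + W.subtype ∘ₗ q₁)
    (LinearMap.id - W.subtype ∘ₗ q₁)
    (by ext v; simp [hq₁]) (by ext v; simp [hq₁])
  have ht : ∀ v, t v = v + q₁ v := fun v => rfl
  have hKr : Module.rank F K = Module.rank F V := by
    apply le_antisymm (Submodule.rank_le _)
    rw [← hW]
    exact LinearMap.rank_le_of_injective (Submodule.inclusion hWK)
      (Submodule.inclusion_injective hWK)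
  obtain ⟨k, hk, hkt⟩ := claim0' hV hH K hKr hK t
  have hkW : ∀ w ∈ W, k w = w := fun w hw => by
    rw [hkt w (hWK hw), ht, hq₁' w hw]; simp
  set x : V ≃ₗ[F] V := k * m * k⁻¹ * m⁻¹ with hx
  have hxH : x ∈ H := H.mul_mem (H.mul_mem (H.mul_mem hk hm) (H.inv_mem hk)) (H.inv_mem hm)
  -- x in terms of a = m⁻¹ v and b = k⁻¹ a
  have hxv : ∀ b : V, x (m (k b)) = k (m b) := fun b => by
    rw [hx, LinearEquiv.mul_apply, LinearEquiv.mul_apply, LinearEquiv.mul_apply,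
      LinearEquiv.coe_inv, LinearEquiv.coe_inv, LinearEquiv.symm_apply_apply,
      LinearEquiv.symm_apply_apply]
  have hxW : ∀ v, x v - v ∈ W := by
    intro v
    obtain ⟨a, rfl⟩ := m.surjective v
    obtain ⟨b, rfl⟩ := k.surjective a
    rw [hxv]
    have h1 : k (m b) - k b ∈ W := by
      rw [← map_sub, hkW _ (hmW b)]
      exact hmW b
    have h2 := W.sub_mem h1 (hmW (k b))
    convert h2 using 1
    abel
  have hmwW : ∀ w ∈ W, m w ∈ W := fun w hw => by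
    have := W.add_mem (hmW w) hw
    simpa using this
  have hx0 : ∀ w ∈ W, x w = w := by
    intro w hw
    obtain ⟨a, rfl⟩ := m.surjective w
    have ha : a ∈ W := by
      have := W.sub_mem hw (hmW a)
      simpa using this
    have h3 := hxv a
    rw [hkW a ha, hkW _ hw] at h3
    exact h3
  refine ⟨((x : V →ₗ[F] V) - LinearMap.id).codRestrict W (fun v => hxW v),
    ⟨fun w => ?_, x, hxH, fun v => ?_⟩, fun v hv => ?_⟩
  · apply Subtype.ext
    simp [hx0 w w.2]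
  · simp
  · apply Subtype.ext
    change x v - v = _
    obtain ⟨a, rfl⟩ := m.surjective v
    have haK : a ∈ K := by
      have := K.sub_mem hv (hWK (hmW a))
      simpa using this
    have hqa : q₁ (m a) = q₁ a := by
      have h2 : q₁ (m a - a) = 0 := hq₁' _ (hmW a)
      rw [map_sub, sub_eq_zero] at h2
      exact h2
    have hka : k (a - q₁ a) = a := by
      rw [hkt _ (K.sub_mem haK (hWK (q₁ a).2)), ht, map_sub, hq₁, sub_zero]
      simp
    have h4 := hxv (a - q₁ a)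
    rw [hka] at h4
    rw [h4, map_sub m, hmf, map_sub k, hkW _ (f (q₁ a)).2, hkt _ hv, ht, hqa]
    simp only [Submodule.coe_sub]
    abel

/-- left multipliers of `QW` -/
def InR (H : Subgroup (V ≃ₗ[F] V)) (W : Submodule F V) (φ : W →ₗ[F] W) : Prop :=
  ∀ q, QW H W q → QW H W (φ ∘ₗ q)

theorem InR.add {φ ψ : W →ₗ[F] W} (h : InR H W φ) (h' : InR H W ψ) : InR H W (φ + ψ) := by
  intro q hq
  rw [LinearMap.add_comp]
  exact (h q hq).add (h' q hq)

theorem InR.comp {φ ψ : W →ₗ[F] W} (h : InR H W φ) (h' : InR H W ψ) : InR H W (φ ∘ₗ ψ) := by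
  intro q hq
  exact h _ (h' q hq)

theorem InR.commutator (hH : Ind H) (hW : Module.rank F W = Module.rank F V)
    (hWq : Module.rank F (V ⧸ W) = Module.rank F V) {f : W →ₗ[F] W} (hf : NW H W f)
    (θ : W →ₗ[F] W) (h1 : ∀ w, θ (θ w) = 0) (h2 : ∀ w, θ (f (θ w)) = 0) :
    InR H W (θ ∘ₗ f - f ∘ₗ θ) := by
  let t : W ≃ₗ[F] W := LinearEquiv.ofLinearMap (LinearMap.id + θ) (LinearMap.id - θ)
    (by ext v; simp [h1]) (by ext v; simp [h1])
  intro q hq
  have h3 := (hq.comp (hf.conj hH hW hWq t)).sub (hq.comp hf)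
  convert h3 using 1
  ext v
  have ht : ∀ w, t w = w + θ w := fun w => rfl
  have hts : ∀ w, t.symm w = w - θ w := fun w => rfl
  simp only [LinearMap.comp_apply, LinearMap.sub_apply, LinearEquiv.coe_coe, ht, hts, map_sub,
    h2]
  congr 1
  abel

theorem InR.all (hH : Ind H) (hW : Module.rank F W = Module.rank F V)
    (hWq : Module.rank F (V ⧸ W) = Module.rank F V) {f : W →ₗ[F] W} (hf : NW H W f)
    {A C : Type v} [AddCommGroup A] [Module F A] [AddCommGroup C] [Module F C]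
    (e : W ≃ₗ[F] A × C) (s : C ≃ₗ[F] A) (a : F) (m l : C →ₗ[F] C)
    (hfe : ∀ p, f (e.symm p) = e.symm (a • p.1, m p.2))
    (hl1 : ∀ c, m (l c) - a • l c = c) (hl2 : ∀ c, l (m c) - a • l c = c)
    (φ : W →ₗ[F] W) : InR H W φ := by
  -- blocks
  have h12 : ∀ x : C →ₗ[F] A, InR H W ((e.symm : A × C →ₗ[F] W) ∘ₗ LinearMap.inl F A C ∘ₗ x ∘ₗ
      LinearMap.snd F A C ∘ₗ (e : W →ₗ[F] A × C)) := by
    intro x
    have h := InR.commutator hH hW hWq hf ((e.symm : A × C →ₗ[F] W) ∘ₗ LinearMap.inl F A C ∘ₗ x ∘ₗ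
      l ∘ₗ LinearMap.snd F A C ∘ₗ (e : W →ₗ[F] A × C)) (fun w => by simp)
      (fun w => by simp [hfe])
    convert h using 1
    apply LinearMap.ext
    intro w
    obtain ⟨p, rfl⟩ := e.symm.surjective w
    have h6 : x p.2 = x (l (m p.2)) - a • x (l p.2) := by
      conv_lhs => rw [← hl2 p.2]
      rw [map_sub, map_smul]
    simp only [LinearMap.comp_apply, LinearMap.sub_apply, LinearEquiv.coe_coe, hfe,
      LinearEquiv.apply_symm_apply, LinearMap.inl_apply, LinearMap.snd_apply, map_zero]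
    rw [← map_sub, Prod.mk_sub_mk, sub_zero, h6]
  have h21 : ∀ y : A →ₗ[F] C, InR H W ((e.symm : A × C →ₗ[F] W) ∘ₗ LinearMap.inr F A C ∘ₗ y ∘ₗ
      LinearMap.fst F A C ∘ₗ (e : W →ₗ[F] A × C)) := by
    intro y
    have h := InR.commutator hH hW hWq hf ((e.symm : A × C →ₗ[F] W) ∘ₗ LinearMap.inr F A C ∘ₗ
      (-l) ∘ₗ y ∘ₗ LinearMap.fst F A C ∘ₗ (e : W →ₗ[F] A × C)) (fun w => by simp)
      (fun w => by simp [hfe])
    convert h using 1
    apply LinearMap.ext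
    intro w
    obtain ⟨p, rfl⟩ := e.symm.surjective w
    have h5 : ∀ c, -l (a • c) - m (-l c) = c := fun c => by
      rw [map_smul, map_neg, sub_neg_eq_add]
      conv_rhs => rw [← hl1 c]
      abel
    simp only [LinearMap.comp_apply, LinearMap.sub_apply, LinearEquiv.coe_coe, hfe,
      LinearEquiv.apply_symm_apply, LinearMap.inr_apply, LinearMap.fst_apply, smul_zero,
      LinearMap.neg_apply]
    rw [← map_sub, Prod.mk_sub_mk, sub_zero, map_smul y, h5]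
  -- assemble
  have key : φ =
      ((e.symm : A × C →ₗ[F] W) ∘ₗ LinearMap.inl F A C ∘ₗ
        ((LinearMap.fst F A C ∘ₗ (e : W →ₗ[F] A × C) ∘ₗ φ ∘ₗ (e.symm : A × C →ₗ[F] W) ∘ₗ
          LinearMap.inl F A C) ∘ₗ (s : C →ₗ[F] A)) ∘ₗ
        LinearMap.snd F A C ∘ₗ (e : W →ₗ[F] A × C)) ∘ₗ
      ((e.symm : A × C →ₗ[F] W) ∘ₗ LinearMap.inr F A C ∘ₗ (s.symm : A →ₗ[F] C) ∘ₗ
        LinearMap.fst F A C ∘ₗ (e : W →ₗ[F] A × C))
      + (e.symm : A × C →ₗ[F] W) ∘ₗ LinearMap.inl F A C ∘ₗ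
        (LinearMap.fst F A C ∘ₗ (e : W →ₗ[F] A × C) ∘ₗ φ ∘ₗ (e.symm : A × C →ₗ[F] W) ∘ₗ
          LinearMap.inr F A C) ∘ₗ
        LinearMap.snd F A C ∘ₗ (e : W →ₗ[F] A × C)
      + (e.symm : A × C →ₗ[F] W) ∘ₗ LinearMap.inr F A C ∘ₗ
        (LinearMap.snd F A C ∘ₗ (e : W →ₗ[F] A × C) ∘ₗ φ ∘ₗ (e.symm : A × C →ₗ[F] W) ∘ₗ
          LinearMap.inl F A C) ∘ₗ
        LinearMap.fst F A C ∘ₗ (e : W →ₗ[F] A × C)
      + ((e.symm : A × C →ₗ[F] W) ∘ₗ LinearMap.inr F A C ∘ₗ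
        ((LinearMap.snd F A C ∘ₗ (e : W →ₗ[F] A × C) ∘ₗ φ ∘ₗ (e.symm : A × C →ₗ[F] W) ∘ₗ
          LinearMap.inr F A C) ∘ₗ (s.symm : A →ₗ[F] C)) ∘ₗ
        LinearMap.fst F A C ∘ₗ (e : W →ₗ[F] A × C)) ∘ₗ
      ((e.symm : A × C →ₗ[F] W) ∘ₗ LinearMap.inl F A C ∘ₗ (s : C →ₗ[F] A) ∘ₗ
        LinearMap.snd F A C ∘ₗ (e : W →ₗ[F] A × C)) := by
    apply LinearMap.ext
    intro w
    obtain ⟨p, rfl⟩ := e.symm.surjective w
    apply e.injective
    obtain ⟨p1, p2⟩ := p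
    have hp : (p1, p2) = (p1, (0 : C)) + ((0 : A), p2) := by simp
    conv_lhs => rw [hp, map_add, map_add, map_add]
    simp only [LinearMap.comp_apply, LinearMap.add_apply, LinearEquiv.coe_coe,
      LinearEquiv.apply_symm_apply, LinearMap.inl_apply, LinearMap.inr_apply,
      LinearMap.fst_apply, LinearMap.snd_apply, LinearEquiv.symm_apply_apply, map_add]
    refine Prod.ext ?_ ?_
    · simp
    · simp [add_comm]
  rw [key]
  exact ((((h12 _).comp (h21 _)).add (h12 _)).add (h21 _)).add ((h21 _).comp (h12 _))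

end Pool.Agent.Helper125GL
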