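import Pool.Agent.Helper125_GL.Full

namespace Pool.Agent.Helper125GL

open Cardinal Submodule

universe u v

variable {F : Type u} {V : Type v} [Field F] [AddCommGroup V] [Module F V]

/-- the shift on finitely supported sequences indexed by the integers -/
noncomputable def shift (F : Type u) (V : Type v) [Field F] [AddCommGroup V] [Module F V] :
    (ℤ →₀ V) ≃ₗ[F] (ℤ →₀ V) := Finsupp.domLCongr (Equiv.addRight (1 : ℤ))

theorem shift_single (n : ℤ) (m : V) :
    shift F V (Finsupp.single n m) = Finsupp.single (n + 1) m := by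
  simp [shift]

/-- evaluation at `s` -/
noncomputable def ev (V : Type v) [AddCommGroup V] [Module F V] (s : F) : (ℤ →₀ V) →ₗ[F] V :=
  Finsupp.lsum F (fun n : ℤ => (s ^ n) • (LinearMap.id : V →ₗ[F] V))

theorem ev_single (s : F) (n : ℤ) (m : V) : ev V s (Finsupp.single n m) = s ^ n • m := by
  simp [ev]

theorem ev_shift (s : F) (hs : s ≠ 0) (x : ℤ →₀ V) : ev V s (shift F V x) = s • ev V s x := by
  have : ev V s ∘ₗ (shift F V : (ℤ →₀ V) →ₗ[F] (ℤ →₀ V)) = s • ev V s := by
    apply Finsupp.lhom_ext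
    intro n m
    rw [LinearMap.comp_apply, LinearEquiv.coe_coe, shift_single, ev_single, LinearMap.smul_apply,
      ev_single, zpow_add_one₀ hs, smul_smul, mul_comm]
  exact LinearMap.congr_fun this x

theorem rank_seq (hV : ℵ₀ ≤ Module.rank F V) : Module.rank F (ℤ →₀ V) = Module.rank F V := by
  rw [rank_finsupp]
  simp [Cardinal.aleph0_mul_eq hV]

/-- counting step -/
theorem stepA (hF : Cardinal.lift.{u} (Module.rank F V) < Cardinal.lift.{v} #F)
    (hV : ℵ₀ ≤ Module.rank F V) (h : V ≃ₗ[F] V) (i : (ℤ →₀ V) →ₗ[F] V)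
    (hi : Function.Injective i) (hh : ∀ x, h (i x) = i (shift F V x)) :
    ∃ s : F, s ≠ 0 ∧ ∀ v c : V, h v - s • v = i (Finsupp.single 0 c) → c = 0 := by
  by_contra hcon
  push Not at hcon
  have hFi : Infinite F := by
    rw [Cardinal.infinite_iff]
    have h1 : Cardinal.lift.{u} ℵ₀ ≤ Cardinal.lift.{v} #F :=
      (Cardinal.lift_le.2 hV).trans hF.le
    rw [Cardinal.lift_aleph0] at h1
    exact Cardinal.aleph0_le_lift.1 h1
  have hcon' : ∀ s : ({0}ᶜ : Set F), ∃ v c : V, h v - (s : F) • v = i (Finsupp.single 0 c) ∧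
      c ≠ 0 := fun s => hcon s s.2
  choose v c hvc hc using hcon'
  set Ua : Submodule F V := LinearMap.range i with hUa
  have hle : Ua ≤ Ua.comap (h : V →ₗ[F] V) := by
    rintro _ ⟨x, rfl⟩
    exact ⟨shift F V x, (hh x).symm⟩
  have hlin := Module.End.eigenvectors_linearIndependent' (R := F) (M := V ⧸ Ua)
    (Ua.mapQ Ua (h : V →ₗ[F] V) hle) (fun s : ({0}ᶜ : Set F) => (s : F)) Subtype.val_injective
    (fun s => Ua.mkQ (v s)) (fun s => by
      rw [Module.End.hasEigenvector_iff, Module.End.mem_eigenspace_iff]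
      constructor
      · rw [Submodule.mkQ_apply, Submodule.mapQ_apply, ← Submodule.Quotient.mk_smul,
          Submodule.Quotient.eq]
        change h (v s) - (s : F) • v s ∈ Ua
        rw [hvc]
        exact ⟨_, rfl⟩
      · intro h0
        rw [Submodule.mkQ_apply, Submodule.Quotient.mk_eq_zero] at h0
        obtain ⟨x, hx⟩ := h0
        have h1 := hvc s
        rw [← hx, hh, ← map_smul, ← map_sub] at h1
        have h2 := hi h1
        have h3 := congrArg (ev V (s : F)) h2
        rw [map_sub, ev_shift _ s.2, map_smul, sub_self, ev_single, zpow_zero, one_smul] at h3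
        exact hc s h3.symm)
  have hcard := hlin.cardinal_lift_le_rank
  rw [Cardinal.mk_compl_of_infinite _ (by
    rw [Cardinal.mk_singleton]
    exact Cardinal.one_lt_aleph0.trans_le (Cardinal.infinite_iff.1 hFi))] at hcard
  exact absurd (hcard.trans (Cardinal.lift_le.2 (rank_quotient_le _))) (not_le.2 hF)

end Pool.Agent.Helper125GL
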