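import Pool.Agent.Helper125_GL.StepA

namespace Pool.Agent.Helper125GL

open Cardinal Submodule

universe u v

variable {F : Type u} {V : Type v} [Field F] [AddCommGroup V] [Module F V]
variable {H : Subgroup (V ≃ₗ[F] V)}

theorem exists_full (hV : ℵ₀ ≤ Module.rank F V)
    (hF : Cardinal.lift.{u} (Module.rank F V) < Cardinal.lift.{v} #F) (hH : Ind H) :
    ∃ W : Submodule F V, Module.rank F W = Module.rank F V ∧
      Module.rank F (V ⧸ W) = Module.rank F V ∧
      ∀ q : V →ₗ[F] W, (∀ w : W, q w = 0) → QW H W q := by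
  have hFi : Infinite F := by
    rw [Cardinal.infinite_iff]
    have h1 : Cardinal.lift.{u} ℵ₀ ≤ Cardinal.lift.{v} #F :=
      (Cardinal.lift_le.2 hV).trans hF.le
    rw [Cardinal.lift_aleph0] at h1
    exact Cardinal.aleph0_le_lift.1 h1
  obtain ⟨E⟩ : Nonempty (V ≃ₗ[F] (ℤ →₀ V) × V) := by
    apply nonempty_linearEquiv_of_rank_eq
    rw [rank_prod', rank_seq hV, Cardinal.add_eq_self hV]
  set i : (ℤ →₀ V) →ₗ[F] V := (E.symm : (ℤ →₀ V) × V →ₗ[F] V) ∘ₗ LinearMap.inl F (ℤ →₀ V) V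
    with hi
  have hiE : ∀ x, E (i x) = (x, 0) := fun x => by simp [hi]
  have hinj : Function.Injective i := by
    intro x y hxy
    have := congrArg E hxy
    rw [hiE, hiE] at this
    exact congrArg Prod.fst this
  have hrq : ∀ j : (ℤ →₀ V) →ₗ[F] V, (∀ x, (E (j x)).2 = 0) →
      Module.rank F (V ⧸ LinearMap.range j) = Module.rank F V := by
    intro j hj
    refine le_antisymm (rank_quotient_le _) (rank_le_quot _
      (LinearMap.snd F (ℤ →₀ V) V ∘ₗ (E : V →ₗ[F] (ℤ →₀ V) × V)) ?_ ?_)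
    · intro v
      exact ⟨E.symm (0, v), by simp⟩
    · rintro _ ⟨x, rfl⟩
      exact hj x
  obtain ⟨h, hhH, hh⟩ := claim0 hV hH i (i ∘ₗ (shift F V : (ℤ →₀ V) →ₗ[F] (ℤ →₀ V)))
    hinj (hinj.comp (shift F V).injective) (rank_seq hV)
    (hrq _ (fun x => by rw [hiE])) (hrq _ (fun x => by rw [LinearMap.comp_apply, hiE]))
  have hh' : ∀ x, h (i x) = i (shift F V x) := hh
  obtain ⟨s, hs, hsc⟩ := stepA hF hV h i hinj hh'
  -- T = h - s
  set T : V →ₗ[F] V := (h : V →ₗ[F] V) - s • LinearMap.id with hT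
  have hTv : ∀ v, T v = h v - s • v := fun v => rfl
  have hTi : ∀ x, T (i x) = i (shift F V x - s • x) := fun x => by
    rw [hTv, hh', map_sub, map_smul]
  have hhT : ∀ v, h (T v) = T (h v) := fun v => by rw [hTv, hTv, map_sub, map_smul]
  set W : Submodule F V := LinearMap.range T with hWdef
  have hTW : ∀ v, T v ∈ W := fun v => ⟨v, rfl⟩
  -- ι n
  set ι : ℤ → V →ₗ[F] V := fun n => T ∘ₗ i ∘ₗ Finsupp.lsingle n with hι
  have hιv : ∀ n m, ι n m = i (Finsupp.single (n + 1) m - s • Finsupp.single n m) := fun n m => by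
    rw [hι]
    simp only [LinearMap.comp_apply, Finsupp.lsingle_apply]
    rw [hTi, shift_single]
  have hιW : ∀ n m, ι n m ∈ W := fun n m => hTW _
  have hhι : ∀ n m, h (ι n m) = ι (n + 1) m := fun n m => by
    rw [hιv, hιv, hh', map_sub, map_smul, shift_single, shift_single]
  -- P
  set P : V →ₗ[F] V := (Finsupp.lapply (1 : ℤ) + s • Finsupp.lapply (2 : ℤ)) ∘ₗ
    LinearMap.fst F (ℤ →₀ V) V ∘ₗ (E : V →ₗ[F] (ℤ →₀ V) × V) with hP
  have hPi : ∀ x, P (i x) = x 1 + s • x 2 := fun x => by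
    rw [hP]
    simp only [LinearMap.comp_apply, LinearEquiv.coe_coe, hiE, LinearMap.fst_apply,
      LinearMap.add_apply, LinearMap.smul_apply, Finsupp.lapply_apply]
  have hP0 : ∀ m, P (ι 0 m) = m := fun m => by
    rw [hιv, hPi]
    simp
  have hP1 : ∀ m, P (ι 1 m) = 0 := fun m => by
    rw [hιv, hPi]
    simp
  have hPm : ∀ m, P (ι (-1) m) = 0 := fun m => by
    rw [hιv, hPi]
    simp
  -- W is large
  have hWr : Module.rank F W = Module.rank F V := by
    apply le_antisymm (Submodule.rank_le _)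
    refine LinearMap.rank_le_of_injective ((ι 0).codRestrict W (hιW 0)) ?_
    intro a b hab
    have h1 : ι 0 a = ι 0 b := congrArg Subtype.val hab
    rw [← hP0 a, h1, hP0]
  have hWq : Module.rank F (V ⧸ W) = Module.rank F V := by
    apply le_antisymm (rank_quotient_le _)
    refine LinearMap.rank_le_of_injective (W.mkQ ∘ₗ i ∘ₗ Finsupp.lsingle (0 : ℤ)) ?_
    rw [← LinearMap.ker_eq_bot, LinearMap.ker_eq_bot']
    intro c hc
    simp only [LinearMap.comp_apply, Finsupp.lsingle_apply, Submodule.mkQ_apply,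
      Submodule.Quotient.mk_eq_zero] at hc
    obtain ⟨v, hv⟩ := hc
    exact hsc v c hv
  -- the scalar ζ
  classical
  obtain ⟨ζ, hζ⟩ := Infinite.exists_notMem_finset ({0, 1, -1} : Finset F)
  simp only [Finset.mem_insert, Finset.mem_singleton, not_or] at hζ
  obtain ⟨hζ0, hζ1, hζm⟩ := hζ
  -- k₀
  let k₀ : V ≃ₗ[F] V := LinearEquiv.ofLinearMap (LinearMap.id + (ζ - 1) • (ι 0 ∘ₗ P))
    (LinearMap.id + (ζ⁻¹ - 1) • (ι 0 ∘ₗ P))
    (by
      apply LinearMap.ext
      intro v
      simp only [LinearMap.comp_apply, LinearMap.add_apply, LinearMap.id_apply,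
        LinearMap.smul_apply, map_add, map_smul, hP0]
      have : (ζ - 1) + ((ζ⁻¹ - 1) + (ζ⁻¹ - 1) * (ζ - 1)) = 0 := by
        field_simp
        ring
      rw [smul_add, smul_smul, add_assoc, ← add_smul, ← add_smul, this, zero_smul, add_zero])
    (by
      apply LinearMap.ext
      intro v
      simp only [LinearMap.comp_apply, LinearMap.add_apply, LinearMap.id_apply,
        LinearMap.smul_apply, map_add, map_smul, hP0]
      have : (ζ⁻¹ - 1) + ((ζ - 1) + (ζ - 1) * (ζ⁻¹ - 1)) = 0 := by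
        field_simp
        ring
      rw [smul_add, smul_smul, add_assoc, ← add_smul, ← add_smul, this, zero_smul, add_zero])
  have hk₀ : ∀ v, k₀ v = v + (ζ - 1) • ι 0 (P v) := fun v => rfl
  obtain ⟨k, hkH, hk⟩ := claim0' hV hH W hWr hWq k₀
  have hkW : ∀ w ∈ W, k w = w + (ζ - 1) • ι 0 (P w) := fun w hw => by rw [hk w hw, hk₀]
  have hkmem : ∀ w ∈ W, k w ∈ W := fun w hw => by
    rw [hkW w hw]
    exact W.add_mem hw (W.smul_mem _ (hιW 0 _))
  have hhmem : ∀ w ∈ W, h w ∈ W := by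
    rintro _ ⟨v, rfl⟩
    rw [hhT]; exact hTW _
  have hhsmem : ∀ w ∈ W, h.symm w ∈ W := by
    rintro _ ⟨v, rfl⟩
    have : h.symm (T v) = T (h.symm v) := by
      rw [LinearEquiv.symm_apply_eq, hhT, LinearEquiv.apply_symm_apply]
    rw [this]; exact hTW _
  set n : V ≃ₗ[F] V := h * k * h⁻¹ * k⁻¹ with hn
  have hnH : n ∈ H := H.mul_mem (H.mul_mem (H.mul_mem hhH hkH) (H.inv_mem hhH)) (H.inv_mem hkH)
  have hnv : ∀ y : V, n (k (h y)) = h (k y) := fun y => by
    rw [hn, LinearEquiv.mul_apply, LinearEquiv.mul_apply, LinearEquiv.mul_apply,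
      LinearEquiv.coe_inv, LinearEquiv.coe_inv, LinearEquiv.symm_apply_apply,
      LinearEquiv.symm_apply_apply]
  have hnW : ∀ v, n v - v ∈ W := by
    intro v
    obtain ⟨a, rfl⟩ := k.surjective v
    obtain ⟨y, rfl⟩ := h.surjective a
    rw [hnv]
    have h1 : h (k y) - k (h y) = T (k y) - k (T y) := by
      rw [hTv, hTv, map_sub, map_smul]; abel
    rw [h1]
    exact W.sub_mem (hTW _) (hkmem _ (hTW _))
  have hnmem : ∀ w ∈ W, n w ∈ W := fun w hw => by
    have := W.add_mem (hnW w) hw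
    simpa using this
  set f : W →ₗ[F] W := (n : V →ₗ[F] V).restrict hnmem with hf
  have hfn : NW H W f := ⟨n, hnH, hnW, fun w => rfl⟩
  -- action of n
  have hn0 : ∀ x, n (ι 0 x) = ζ⁻¹ • ι 0 x := by
    intro x
    have h1 := hnv (ι (-1) x)
    rw [hhι, hkW _ (hιW _ _), hkW _ (hιW _ _), hPm, map_zero, smul_zero, add_zero, hhι] at h1
    have h0 : (-1 : ℤ) + 1 = 0 := by norm_num
    rw [h0, hP0] at h1
    have h2 : ι 0 x + (ζ - 1) • ι 0 x = ζ • ι 0 x := by
      rw [sub_smul, one_smul]; abel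
    rw [h2, map_smul] at h1
    rw [eq_inv_smul_iff₀ hζ0]
    exact h1
  have hnc : ∀ c ∈ W, P c = 0 → n c = c + (ζ - 1) • ι 1 (P (h.symm c)) := by
    intro c hc hPc
    have h1 := hnv (h.symm c)
    rw [LinearEquiv.apply_symm_apply, hkW c hc, hPc, map_zero, smul_zero, add_zero,
      hkW _ (hhsmem c hc), map_add, map_smul, hhι, LinearEquiv.apply_symm_apply, zero_add] at h1
    exact h1
  -- the complement C
  set C : Submodule F W := LinearMap.ker (P ∘ₗ W.subtype) with hC
  set ι0 : V →ₗ[F] W := (ι 0).codRestrict W (hιW 0) with hι0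
  have hCP : ∀ c : C, P ((c : W) : V) = 0 := fun c => c.2
  let e : W ≃ₗ[F] V × C := LinearEquiv.ofLinearMap
    ((P ∘ₗ W.subtype).prod ((LinearMap.id - ι0 ∘ₗ P ∘ₗ W.subtype).codRestrict C (fun w => by
      rw [hC, LinearMap.mem_ker]
      simp [hι0, hP0])))
    (ι0.coprod C.subtype)
    (by
      apply LinearMap.ext
      rintro ⟨x, c⟩
      refine Prod.ext ?_ ?_
      · simp [hι0, hP0, hCP]
      · apply Subtype.ext
        apply Subtype.ext
        simp [hι0, hP0, hCP])
    (by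
      apply LinearMap.ext
      intro w
      simp)
  have hes : ∀ p : V × C, e.symm p = ι0 p.1 + (p.2 : W) := fun p => rfl
  -- D
  have hDm : ∀ c : C, (⟨ι 1 (P (h.symm ((c : W) : V))), hιW 1 _⟩ : W) ∈ C := fun c =>
    LinearMap.mem_ker.2 (hP1 _)
  let D : C →ₗ[F] C :=
    { toFun := fun c => ⟨⟨ι 1 (P (h.symm ((c : W) : V))), hιW 1 _⟩, hDm c⟩
      map_add' := fun c c' => by
        apply Subtype.ext
        apply Subtype.ext
        simp
      map_smul' := fun c c' => by
        apply Subtype.ext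
        apply Subtype.ext
        simp }
  have hDv : ∀ c : C, (((D c : C) : W) : V) = ι 1 (P (h.symm ((c : W) : V))) := fun c => rfl
  have hsι : ∀ x, h.symm (ι 1 x) = ι 0 x := fun x => by
    rw [LinearEquiv.symm_apply_eq, hhι, zero_add]
  have hDD : ∀ c, D (D c) = D c := fun c => by
    apply Subtype.ext
    apply Subtype.ext
    rw [hDv, hDv, hsι, hP0]
  set a : F := ζ⁻¹ with ha
  have ha1 : a ≠ 1 := by
    intro h1
    exact hζ1 (inv_eq_one.1 h1)
  have ha1' : 1 - a ≠ 0 := sub_ne_zero.2 (Ne.symm ha1)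
  have hζa : ζ - a ≠ 0 := by
    intro h1
    have h2 : ζ * ζ = 1 := by
      have h3 : ζ = ζ⁻¹ := by rw [ha] at h1; exact sub_eq_zero.1 h1
      calc ζ * ζ = ζ * ζ⁻¹ := by rw [← h3]
        _ = 1 := mul_inv_cancel₀ hζ0
    rcases mul_self_eq_one_iff.1 h2 with h3 | h3
    · exact hζ1 h3
    · exact hζm h3
  set α : F := (1 - a)⁻¹ with hα
  set β : F := -(ζ - 1) * α / (ζ - a) with hβ
  have hid1 : (1 - a) * α = 1 := mul_inv_cancel₀ ha1'
  have hid2 : (1 - a) * β + ((ζ - 1) * α + (ζ - 1) * β) = 0 := by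
    have : β * (ζ - a) = -(ζ - 1) * α := by rw [hβ]; field_simp
    linear_combination this
  refine ⟨W, hWr, hWq, fun q hq => ?_⟩
  -- ranks
  have hCr : Module.rank F C = Module.rank F V := by
    apply le_antisymm ((Submodule.rank_le _).trans hWr.le)
    let ι1 : V →ₗ[F] C :=
      { toFun := fun x => ⟨⟨ι 1 x, hιW 1 x⟩, LinearMap.mem_ker.2 (hP1 x)⟩
        map_add' := fun x y => by
          apply Subtype.ext; apply Subtype.ext; simp
        map_smul' := fun x y => by
          apply Subtype.ext; apply Subtype.ext; simp }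
    refine LinearMap.rank_le_of_injective ι1 ?_
    intro x y hxy
    have h1 : ι 1 x = ι 1 y := congrArg (fun c : C => ((c : W) : V)) hxy
    have h2 := congrArg (fun z => P (h.symm z)) h1
    simp only [hsι, hP0] at h2
    exact h2
  obtain ⟨sC⟩ := nonempty_linearEquiv_of_rank_eq hCr
  obtain ⟨jW⟩ := nonempty_linearEquiv_of_rank_eq hWr
  refine full_of_block hV hH hWr hWq hfn e sC jW a ha1
    (LinearMap.id + (ζ - 1) • D) (α • LinearMap.id + β • D) ?_ ?_ ?_ q hq
  · intro p
    apply Subtype.ext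
    rw [hes, hes, map_add]
    have h1 : ((f (ι0 p.1) : W) : V) = a • ι 0 p.1 := hn0 p.1
    have h2 : ((f (p.2 : W) : W) : V) = ((p.2 : W) : V) + (ζ - 1) • ι 1 (P (h.symm ((p.2 : W) : V))) :=
      hnc _ (p.2 : W).2 (hCP _)
    rw [Submodule.coe_add, h1, h2]
    simp [hι0, hDv]
  · intro c
    simp only [LinearMap.add_apply, LinearMap.smul_apply, LinearMap.id_apply, map_add, map_smul,
      hDD]
    have h3 : α • (c + (ζ - 1) • D c) + β • (D c + (ζ - 1) • D c) - a • (α • c + β • D c) =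
        ((1 - a) * α) • c + ((1 - a) * β + ((ζ - 1) * α + (ζ - 1) * β)) • D c := by
      module
    rw [h3, hid1, hid2, one_smul, zero_smul, add_zero]
  · intro c
    simp only [LinearMap.add_apply, LinearMap.smul_apply, LinearMap.id_apply, map_add, map_smul,
      hDD]
    have h3 : α • c + β • D c + (ζ - 1) • (α • D c + β • D c) - a • (α • c + β • D c) =
        ((1 - a) * α) • c + ((1 - a) * β + ((ζ - 1) * α + (ζ - 1) * β)) • D c := by
      module
    rw [h3, hid1, hid2, one_smul, zero_smul, add_zero]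

end Pool.Agent.Helper125GL
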